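import Pool.Agent.Helper21_R30.Basic

/-!
# Squad R30B (MP_3953f1_lc): long runs in an eventually periodic column of Rule 30

`D t k` is the cell at time `t` in column `k ≥ 0`, to the right of the driver column `0`. The right
side is arbitrary. All rows are independent: the statements in `uses` are hypotheses.
-/

set_option autoImplicit false

namespace Pool.Agent.R30B

open Pool.Agent.H21R30

/-- A diagram of Rule 30 in the columns `≥ 0`; column `0` is arbitrary (the driver). -/
def Dia (D : ℕ → ℕ → Bool) : Prop :=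
  ∀ t k, D (t + 1) (k + 1) = Bool.xor (D t k) (D t (k + 1) || D t (k + 2))

/-! ## Part 1: runs of ones (helper60) -/

/-- ABS: nine ones of the driver force `(0, 1)` in the columns `1, 2`.

Proof.  Automaton of the columns `1, ..., 5` with a free column `6`: after 9 steps from any of the 32
states all states have the prefix `0, 1` (kernel computation). -/
def AbsStmt : Prop := ∀ D, Dia D → (∀ t < 9, D t 0 = true) → D 9 1 = false ∧ D 9 2 = true

/-- PAT: the stripes.  Uses ABS.

Proof.  Induction on `j`: column `2 j - 2` is `true` at the times `9 (j - 1), ..., n + 2 (j - 1) - 1`, at least nine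
times since `7 j + 2 ≤ n`.  By ABS (shifted) the pair `2 j - 1, 2 j` is `(0, 1)` at the time `9 j`, and this
persists while column `2 j - 2` is `true` and one step more; column `2 j` is `true` for one more step. -/
def PatStmt : Prop := ∀ D, Dia D → ∀ n j : ℕ, 1 ≤ j → 7 * j + 2 ≤ n → (∀ t < n, D t 0 = true) →
  (∀ t, 9 * j ≤ t → t + 2 ≤ n + 2 * j → D t (2 * j - 1) = false) ∧
  (∀ t, 9 * j ≤ t → t + 1 ≤ n + 2 * j → D t (2 * j) = true)

/-- AGR: two diagrams with the same driver, which is `1` for `n` steps.  Uses PAT.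

Proof.  For `1 ≤ k ≤ 2 j`, `9 ⌈k / 2⌉ ≤ t ≤ E`, `t + k ≤ n + 4 j` one has `D t k = D' t k`, by induction on `t`.  If
`t ≤ n + k - 1`: PAT.  Otherwise `t = t' + 1`, `t' ≥ n + k - 1`, and `D t k` is given by `D t' (k - 1)`, `D t' k`,
`D t' (k + 1)`, all covered by the induction hypothesis, except `D t' (k + 1)` if `k = 2 j` or (`k` even and
`t' = n + k - 1`): in both cases `t' = n + k - 1` and `D t' k = D' t' k = true`, so `D t' (k + 1)` does not matter. -/
def AgrStmt : Prop := ∀ D D', Dia D → Dia D' → ∀ n j E : ℕ, 1 ≤ j → 7 * j + 2 ≤ n →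
  (∀ t < n, D t 0 = true) → (∀ t < n, D' t 0 = true) → (∀ t < E, D t 0 = D' t 0) →
  ∀ t, 9 ≤ t → t ≤ E → t + 1 ≤ n + 4 * j → D t 1 = D' t 1

/-! ## Part 2: runs of zeros -/

/-- AG2: two diagrams with the same driver, column `1` is `1` for `n` steps.  Uses AGR.

Proof.  Strong induction on `t`: for `t < n` both are `true`.  For `t ≥ n`, `t = t' + 1`: AGR for the diagrams
`D · (· + 1)` with `E = t' + 1` gives `D t' 2 = D' t' 2` (`t' ≥ 9`, `t' + 1 ≤ n + 4 j`), and
`D t 1 = D t' 0 ⊕ (D t' 1 ∨ D t' 2)`. -/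
def Ag2Stmt : Prop := ∀ D D', Dia D → Dia D' → ∀ n j : ℕ, 2 ≤ j → 7 * j + 2 ≤ n →
  (∀ t, D t 0 = D' t 0) → (∀ t < n, D t 1 = true) → (∀ t < n, D' t 1 = true) →
  ∀ t, t ≤ n + 4 * j → D t 1 = D' t 1

/-- WHT: column `0` is white at the times `< a`, column `1` is white at the times `≤ a`: white triangle.

Proof.  Induction on `k`: columns `k`, `k + 1` (`k + 1` from the rule in column `k`). -/
def WhtStmt : Prop := ∀ D, Dia D → ∀ a : ℕ, (∀ t < a, D t 0 = false) → (∀ t ≤ a, D t 1 = false) →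
  ∀ t k, 1 ≤ k → t + k ≤ a + 1 → D t k = false

/-- ZCA: case A.  `p = s + r`; in some period column `1` is already black at the time `9 (r + 2)` before the end of
the run of zeros.  Then column `1` is eventually `p`-periodic.  Uses PAT AG2 WHT.

Proof.  `m = 9 (r + 2)`.  In a run of zeros of the driver column `1` is monotone (`x_1(t+1) = x_1(t) ∨ x_2(t)`), so
`x_1 = 1` at the times `c p + s - m, ..., c p + s`.  PAT for the driver column `1`, origin `c p + s - m`, `n = m + 1`,
`j = r + 2` (`7 j + 2 ≤ 9 j + 1`): column `2 r + 5` is `true` at the times `c p + s, ..., c p + s + 2 r + 4`, so at the time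
`(c + 1) p = c p + s + r`.  By WHT (origin `(c + 1) p`, `a = 2 r + 5`) column `1` is not white at all times
`(c + 1) p, ..., (c + 1) p + 2 r + 5`; monotone: `x_1 = 1` at the times `(c + 1) p + 2 r + 5, ..., (c + 1) p + s`.  As
`2 r + 5 ≤ s - m` the same holds for all later periods.  AG2 for the diagrams with the origins
`O = c' p + 2 r + 5` and `O + p` (`c' > c`), `n = s - 2 r - 4`, `j = (n - 2) / 7`: `x_1(O + t) = x_1(O + p + t)` for
`t ≤ n + 4 j`, and `n + 4 j ≥ p` if `s ≥ 40 (r + 2)`. -/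
def ZcaStmt : Prop := ∀ r s : ℕ, 1 ≤ r → 40 * (r + 2) ≤ s → ∀ D, Dia D →
  (∀ t, D (t + (s + r)) 0 = D t 0) → (∀ t < s, D t 0 = false) →
  (∃ c : ℕ, D (c * (s + r) + (s - 9 * (r + 2))) 1 = true) →
  ∃ N, ∀ t, N ≤ t → D (t + (s + r)) 1 = D t 1

/-- BLK: the row before a white row.

Proof.  `x_(k-1) = x_k ∨ x_(k+1)` in the row `t`, for `1 ≤ k ≤ a`.  If `x_k = 0` for some `1 ≤ k < a`, then
`x_(k+1) = 0` and downwards `x_(k-1) = 0, ..., x_0 = 0`, contradiction. -/
def BlkStmt : Prop := ∀ D, Dia D → ∀ t a : ℕ, D t 0 = true →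
  (∀ k, 1 ≤ k → k ≤ a → D (t + 1) k = false) → ∀ k, k < a → D t k = true

/-- EDG: diagonals of a left moving edge.  `L j t` (`j ≥ 0`) is defined for the times `t ≤ H j`,
`L j (t+1) = L (j-2) t ⊕ (L (j-1) t ∨ L j t)`, written with `L (j + 2)`; `L 0 = L 1 = 1`.  If on a window
`J ≤ j < J + V` of diagonals `L j τ = 1` at one time `τ`, then these diagonals have the period `2 ^ J` near `τ`.

Proof.  First part, induction on `j`: the diagonals `j`, `j + 1` have the period `Q = 2 ^ j` for the times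
`≥ c_j = j 2 ^ (j + 2)`.  Put `δ(t) = L (j+2) (t+Q) ⊕ L (j+2) t`; `δ(t + 1) = δ(t) ∧ ¬ L (j+1) t`, so `δ` is nonincreasing.
If `L (j+1)` has a `1` in a window of length `Q`, `δ = 0` afterwards; otherwise `L (j + 1) = 0` (periodic) and `δ` is
constant, so `L (j + 2)` has the period `2 Q`.  Second part: for `j` in the window `L (j-1)` has a `1` at the times
`τ - Q q`, so `δ = 0` for `L j` after the first of these times: period `Q = 2 ^ J`, no doubling. -/
def EdgStmt : Prop := ∀ J V : ℕ, ∃ C : ℕ, ∀ (L : ℕ → ℕ → Bool) (H : ℕ → ℕ),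
  (∀ j, H j ≤ H (j + 1)) → (∀ j, H (j + 2) ≤ H j + 1) →
  (∀ t ≤ H 0, L 0 t = true) → (∀ t, 1 ≤ t → t ≤ H 1 → L 1 t = true) →
  (∀ j t, t + 1 ≤ H (j + 2) →
    L (j + 2) (t + 1) = Bool.xor (L j t) (L (j + 1) t || L (j + 2) t)) →
  ∀ τ, C ≤ τ → τ ≤ H J → (∀ j, J ≤ j → j < J + V → L j τ = true) →
  ∀ j, J ≤ j → j < J + V → L j (τ - 2 ^ J) = true

/-- ZCB: case B is impossible for two consecutive runs of zeros.  Uses WHT BLK EDG.

Proof.  `m = 9 (r + 2)`, `a = s - m`, `p = s + r`.  `x_1` is monotone in a run, so `x_1 = 0` at the times `≤ a` and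
`p, ..., p + a`.  WHT: row `0` is white in the columns `1, ..., a + 1`, and so is row `p`; BLK: row `p - 1` is black in the
columns `< a`.  Let `e` be the first black column of row `0`, `e ≥ a + 2`.  If `e > s + 2 r + 1` or if there is none: the
driver is white at the times `< s`, so row `s` is white in the columns `1, ..., 2 r + 1`; the driver is black at the
time `s`, so the cell `(s + i, i)`, `1 ≤ i ≤ r`, is black (right moving edge, the cells to the right of it are still
white), contradiction to row `p` at column `r ≤ a + 1`.  So `e ≤ s + 2 r + 1`.  Put `L j t = D t (e + j - t)`, and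
`2 H j = e + j + a` (rounded down): for `t ≤ H j` the column `e + j - t` is `≥ 1`, larger than `t - a - 1`, so the cell is not
influenced by the driver after the time `a`; the assumptions of EDG hold (`L 0 t = 1`: left moving edge in the
white region, `t ≤ (e + a) / 2 < e`; the driver matters only up to the time `a`, where it is white).  Take
`J = 2 r + 2 m + 4`, `V = 2 ^ (J + 2) + 4`, `τ = p - 1 ≤ H J` (`2 (s + r) ≤ 2 s - 2 m + 2 + J`).  The diagonals
`J ≤ j < J + V` are at the time `τ` in the columns `e + j - τ`, between `1` and `a - 1` if `s` is large: black.  EDG: the row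
`τ - Q`, `Q = 2 ^ J`, is black in the `V` columns `e + J - τ + Q + i`, `i < V`.  So row `τ - Q + 1` is white in the columns
`e + J - τ + Q + i`, `1 ≤ i < V`, row `τ - Q + 1 + i'` in the columns with `1 + i' ≤ i < V - i'`; for `i' = Q - 1` this is row
`τ`, and `V ≥ 2 Q + 2`: a white cell of row `τ` in a column `< a`, contradiction. -/
def ZcbStmt : Prop := ∀ r : ℕ, 1 ≤ r → ∃ S : ℕ, ∀ s, S ≤ s → ∀ D, Dia D →
  (∀ t < s, D t 0 = false) → D s 0 = true → D (s + r - 1) 0 = true →
  (∀ t < s, D (s + r + t) 0 = false) →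
  D (s - 9 * (r + 2)) 1 = false → D (s + r + (s - 9 * (r + 2))) 1 = false → False

/-- ZER: a driver of period `s + r` with a run of `s` zeros.  Uses ZCA ZCB.

Proof.  `S = max` of the two bounds; if ZCA does not apply, then `D (c p + s - m) 1 = false` for all `c`: ZCB. -/
def ZerStmt : Prop := ∀ r : ℕ, 1 ≤ r → ∃ S : ℕ, ∀ s, S ≤ s → ∀ D, Dia D →
  (∀ t, D (t + (s + r)) 0 = D t 0) → (∀ t < s, D t 0 = false) → D s 0 = true →
  D (s + r - 1) 0 = true → ∃ N, ∀ t, N ≤ t → D (t + (s + r)) 1 = D t 1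

/-! ## Part 3: theorems about Rule 30 -/

/-- COV: runs of ones, covering version with a window (helper60).  Uses AGR.

Proof.  For `T ≤ t < M - 1` the columns `i - 1` and `i` agree at the times `t` and `t + p`: for `i` by assumption, and
`x_(i-1)(t) = x_i(t+1) ⊕ (x_i(t) ∨ x_(i+1)(t))`, where `x_i(t) = 1` or (by AGR with the origin `s`, `j = (n - 2) / 7`,
`E = t - s`) `x_(i+1)(t + p) = x_(i+1)(t)`.  `H21R30.adjacent` for `i - 1`. -/
def CovStmt : Prop := ∀ (c : ℤ → Bool) (l : ℤ), (∀ i, i < l → c i = false) → c l = true →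
  ∀ (i : ℤ) (p T₀ T M : ℕ), 0 < p → T₀ ≤ T → l + 1 ≤ i + T + p →
  (∀ t, T₀ ≤ t → t < M → cell c (t + p) i = cell c t i) →
  (∀ t, T ≤ t → t < M → cell c t i = false → ∃ s n : ℕ, T₀ ≤ s ∧ 9 ≤ n ∧ s + n ≤ t ∧
    t < s + n + 4 * ((n - 2) / 7) ∧ ∀ q, s ≤ q → q < s + n → cell c q i = true) →
  (M : ℤ) ≤ i - l + 2 * T + p

/-- RUN: runs of ones in a period (helper60).  Uses COV.

Proof.  If `p ≤ n + 4 ((n - 2) / 7)`, every time `t ≥ s` with `x_i(t) = 0` is covered by one of the runs
`[s + k p, s + k p + n)`; COV for all `M`. -/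
def RunStmt : Prop := ∀ (c : ℤ → Bool) (l : ℤ), (∀ i, i < l → c i = false) → c l = true →
  ∀ (i : ℤ) (p N s n : ℕ), 0 < p → (∀ t, N ≤ t → cell c (t + p) i = cell c t i) → N ≤ s → 9 ≤ n →
  (∀ q, s ≤ q → q < s + n → cell c q i = true) → n + 4 * ((n - 2) / 7) < p

/-- ZRO: runs of zeros in a period.  Uses ZER WHT.

Proof.  `S(r) = max` of the bounds of ZER for `1 ≤ r' ≤ r`, plus `r + 2`.  Let `p ≤ s + r` and let the times
`t₀, ..., t₀ + s - 1` be white.  If the column is white at all times `≥ t₀ + p` then column `i + 1` is monotone, so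
eventually constant: `H21R30.ev_of_two`.  Otherwise there is a black time in each period; let `[t₁, t₁ + s')` be the
maximal white interval which contains `[t₀ + p, t₀ + p + s)`, so `s' ≥ s`, `t₁ ≥ N`, `p = s' + r'` with `1 ≤ r' ≤ r` (the
times `t₁ - 1 + p` and `t₁ + s'` are black, `s' < p`).  ZER for `D t k = cell c (t₁ + t) (i + k)`: column `i + 1` is eventually
`p`-periodic; `H21R30.ev_of_two` for `i`, `i + 1`. -/
def ZroStmt : Prop := ∀ r : ℕ, ∃ S : ℕ, ∀ (c : ℤ → Bool) (l : ℤ), (∀ i, i < l → c i = false) →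
  c l = true → ∀ (i : ℤ) (p N t₀ s : ℕ), 0 < p → (∀ t, N ≤ t → cell c (t + p) i = cell c t i) →
  N ≤ t₀ → S ≤ s → p ≤ s + r → (∀ t, t₀ ≤ t → t < t₀ + s → cell c t i = false) → False

end Pool.Agent.R30B
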